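import Mathlib
import Pool.Agent.H82.Ditor

/-!
# Ditor's question on breadth two join-semilattices of size `ℵ_{ω+1}`: Chang's conjecture

If `(ℵ_{ω+1}, ℵ_ω) ↠ (ℵ_{k+1}, ℵ_k)` holds for some natural number `k`, then every join-semilattice
of breadth at most `2` and size at least `ℵ_{ω+1}` has a principal ideal of size at least `ℵ_ω`.
-/

set_option autoImplicit false

open Cardinal Ordinal

namespace Pool.Agent.Results.MP_537c7a_lc.Chang

universe u

/-- Breadth at most `n`: every nonempty finite `X ⊆ L` has a subset `Y` with at most `n` elements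
such that `X` and `Y` have the same join. -/
def BreadthLE (n : ℕ) (L : Type u) [SemilatticeSup L] : Prop :=
  ∀ X : Finset L, X.Nonempty → ∃ Y : Finset L, Y ⊆ X ∧ Y.card ≤ n ∧
    ∃ s : L, IsLUB (X : Set L) s ∧ IsLUB (Y : Set L) s

/-- Chang's conjecture `(ℵ_{ω+1}, ℵ_ω) ↠ (ℵ_{k+1}, ℵ_k)`: every structure `A` of size `ℵ_{ω+1}` in a
countable first-order language, with a distinguished subset `U` of size `ℵ_ω`, has an elementary
substructure `S` of size `ℵ_{k+1}` such that `S ∩ U` has size `ℵ_k`. -/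
def ChangConjecture (k : ℕ) : Prop :=
  ∀ (Λ : FirstOrder.Language.{0, 0}) (A : Type u) [Λ.Structure A] (U : Set A),
    Λ.card ≤ ℵ₀ → #A = ℵ_ (ω + 1) → #U = ℵ_ ω →
    ∃ S : Λ.ElementarySubstructure A,
      #S = ℵ_ ((k : Ordinal.{u}) + 1) ∧ #((S : Set A) ∩ U : Set A) = ℵ_ (k : Ordinal.{u})

/-- The language with countably many function symbols of each arity and no relation symbols. -/
def lang : FirstOrder.Language.{0, 0} := ⟨fun _ => ℕ, fun _ => Empty⟩

theorem lang_card : lang.card ≤ ℵ₀ := by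
  unfold FirstOrder.Language.card FirstOrder.Language.Symbols
  have h1 : Countable (Σ l, lang.Functions l) := by
    unfold lang
    infer_instance
  have h2 : Countable (Σ l, lang.Relations l) := by
    unfold lang
    infer_instance
  exact Cardinal.mk_le_aleph0

theorem result : (∃ k : ℕ, ChangConjecture.{u} k) →
    ∀ (L : Type u) [SemilatticeSup L], BreadthLE 2 L → ℵ_ (ω + 1) ≤ #L →
      ∃ a : L, ℵ_ ω ≤ #(Set.Iic a) := by
  rintro ⟨k, hk⟩ L _ hB hL
  by_contra hcon
  push Not at hcon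
  obtain ⟨d, hd, h2⟩ := Pool.Agent.H82.Ditor.coloring_of_lattice hB
    (Pool.Agent.H82.Ditor.aleph_omega_lt.trans_le hL) hcon
  refine Pool.Agent.H82.Ditor.no_coloring k d hd h2 ?_
  intro F U hU
  have hne : Nonempty Pool.Agent.H82.Ditor.Idx.{u} := by
    rw [← Cardinal.mk_ne_zero_iff, Pool.Agent.H82.Ditor.mk_Idx]
    exact (Cardinal.aleph_pos _).ne'
  obtain ⟨w0⟩ := hne
  let inst : lang.Structure Pool.Agent.H82.Ditor.Idx.{u} :=
    { funMap := fun {n} (f : ℕ) x => if h : 0 < n then F f (x ⟨0, h⟩) else w0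
      RelMap := fun {n} (r : Empty) => r.elim }
  obtain ⟨S, hS, hSU⟩ := hk lang Pool.Agent.H82.Ditor.Idx.{u} U lang_card
    Pool.Agent.H82.Ditor.mk_Idx hU
  refine ⟨(S : Set Pool.Agent.H82.Ditor.Idx.{u}), ?_, hS, ?_⟩
  · intro n x hx
    have h1 := S.toSubstructure.fun_mem (n := 1) (show lang.Functions 1 from n)
      (fun _ => x) (fun _ => hx)
    exact h1
  · rw [← hSU]
    refine Cardinal.mk_le_of_injective (f := fun x => ⟨x.1.1, x.1.2, x.2⟩) ?_
    intro x y hxy
    exact Subtype.ext (Subtype.ext (congrArg (fun z => z.1) hxy))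

end Pool.Agent.Results.MP_537c7a_lc.Chang
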