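import Mathlib
import Pool.Agent.H82.Ditor

/-!
# Ditor's question on breadth two join-semilattices of size `ℵ_{ω+1}`: a characterisation

In ZFC, the semilattices asked for exist if and only if there is a locally small colouring of the
pairs of `ω_{ω+1}` in countably many colours which is subadditive (of both kinds), if and only if
there is such a colouring which is subadditive of the second kind and has
at most `ℵ_n` many `β < α` with `c(β, α) ≤ n`, for all `α` and `n`.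
-/

set_option autoImplicit false

open Cardinal Ordinal

namespace Pool.Agent.Results.MP_537c7a_lc.Characterisation

universe u

/-- Breadth at most `n`: every nonempty finite `X ⊆ L` has a subset `Y` with at most `n` elements
such that `X` and `Y` have the same join. -/
def BreadthLE (n : ℕ) (L : Type u) [SemilatticeSup L] : Prop :=
  ∀ X : Finset L, X.Nonempty → ∃ Y : Finset L, Y ⊆ X ∧ Y.card ≤ n ∧
    ∃ s : L, IsLUB (X : Set L) s ∧ IsLUB (Y : Set L) s

/-- The canonical well-ordered set of order type `ω_{ω+1}`. -/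
abbrev W : Type u := (ω_ (ω + 1) : Ordinal.{u}).ToType

/-- Subadditivity of the first kind. -/
def FirstKind (c : W.{u} → W.{u} → ℕ) : Prop :=
  ∀ β α γ, β < α → α < γ → c β γ ≤ max (c β α) (c α γ)

/-- Subadditivity of the second kind. -/
def SecondKind (c : W.{u} → W.{u} → ℕ) : Prop :=
  ∀ β α γ, β < α → α < γ → c β α ≤ max (c β γ) (c α γ)

theorem result : List.TFAE [
    ∃ (L : Type u) (_ : SemilatticeSup L), BreadthLE 2 L ∧ ¬ BreadthLE 1 L ∧
      #L = ℵ_ (ω + 1) ∧ ∀ a : L, #(Set.Iic a) < ℵ_ ω,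
    ∃ (L : Type u) (_ : SemilatticeSup L), BreadthLE 2 L ∧
      ℵ_ (ω + 1) ≤ #L ∧ ∀ a : L, #(Set.Iic a) < ℵ_ ω,
    ∃ c : W.{u} → W.{u} → ℕ, SecondKind c ∧
      ∀ (α : W.{u}) (n : ℕ), #{β // β < α ∧ c β α ≤ n} ≤ ℵ_ (n : Ordinal.{u}),
    ∃ c : W.{u} → W.{u} → ℕ, FirstKind c ∧ SecondKind c ∧
      ∀ (α : W.{u}) (n : ℕ), #{β // β < α ∧ c β α ≤ n} ≤ ℵ_ (n : Ordinal.{u}),
    ∃ c : W.{u} → W.{u} → ℕ, FirstKind c ∧ SecondKind c ∧
      ∀ (α : W.{u}) (n : ℕ), #{β // β < α ∧ c β α ≤ n} < ℵ_ ω] := by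
  tfae_have 1 → 2 := by
    rintro ⟨L, i, h1, _, h2, h3⟩
    exact ⟨L, i, h1, h2.ge, h3⟩
  tfae_have 2 → 3 := by
    rintro ⟨L, i, h1, h2, h3⟩
    obtain ⟨d, hd, h4⟩ := Pool.Agent.H82.Ditor.coloring_of_lattice h1
      (Pool.Agent.H82.Ditor.aleph_omega_lt.trans_le h2) h3
    exact ⟨d, h4, hd⟩
  tfae_have 3 → 4 := by
    rintro ⟨d, h2, hd⟩
    obtain ⟨c, hc, h3, h4⟩ := Pool.Agent.H82.Ditor.both_kinds d hd h2
    exact ⟨c, h4, h3, hc⟩
  tfae_have 4 → 5 := by
    rintro ⟨c, h1, h2, h3⟩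
    exact ⟨c, h1, h2, fun α n => (h3 α n).trans_lt (Pool.Agent.H82.Ditor.aleph_nat_lt n)⟩
  tfae_have 5 → 1 := by
    rintro ⟨c, h1, h2, h3⟩
    exact Pool.Agent.H82.Ditor.lattice_of_coloring c h3 h2 h1
  tfae_finish

end Pool.Agent.Results.MP_537c7a_lc.Characterisation
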