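import Pool.Agent.H26.BV.Final

/-!
# The negated form of Ditor's question, relative to a large cardinal

If some cardinal `κ` is `κ^{+ω+1}`-supercompact, then there is a model `(M, E)` of ZFC in which
every join-semilattice of breadth at most two and of cardinality `ℵ_{ω+1}` has a principal ideal
which is not of cardinality less than `ℵ_ω`.

The model is the quotient by an ultrafilter of the Boolean-valued universe over the complete
Boolean algebra of the forcing `Col(ω, ν) × Col(ν⁺, <κ)`, for a suitable singular cardinal
`ν < κ` of cofinality `ω`; it is built in `Pool/Agent/H26/BV`.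
-/

set_option autoImplicit false

universe u

theorem Pool.Agent.Results.MP_537c7a_lc.Consistency.result {κ : Cardinal.{u}}
    (hκ : BV.IsSupercompactFor κ (BV.Lam κ)) :
    ∃ (M : Type (u + 1)) (E : M → M → Prop), BV.IsZFC E ∧
      (∃ k k', BV.IsAlephOmega E k ∧ BV.IsSuccCard E k k') ∧ BV.NoDitor E :=
  BV.exists_model hκ
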